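import Mathlib
import Pool.Agent.H879.Star.Fin

set_option autoImplicit false

/-!
# The SHGH conjecture: only finitely many standard classes for each tenth multiplicity

`above w μ` is the number of the multiplicities larger than `μ`; `above w μ ≤ 9` means that the
tenth largest multiplicity is at most `μ`.

(1) Every standard class `(d'; w')` with at most nine multiplicities larger than `μ` (these nine are
arbitrary) and with `d' ≥ 10 ^ 31 (μ + 1) ^ 14`, and every class `(d; w)` in the orbit of such a
class under the Weyl group, has `h⁰ = max (0, χ)` at general points.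

(2) For every class `D = (d; w)` and general points at least one of the following holds:
`h⁰ (D) = max (0, χ)`; some `(-1)`-curve `C` has `C D ≤ -2`; or `D`, after the removal of disjoint
`(-1)`-curves, each taken once, and finitely many quadratic transformations, is a standard class
`(d'; w')` with the same `h⁰`, different from `max (0, χ)`, with `d' ≤ d`, with
`above w' μ ≤ above w μ` for all `μ`, with less than `(d' + 1) (d' + 2) / 2` positive multiplicities,
and with `d' < 10 ^ 31 (μ + 1) ^ 14` for every `μ` with `above w' μ ≤ 9`.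

(3) For every `μ` there are only finitely many standard classes with at most nine multiplicities
larger than `μ` which violate the conjecture, for all numbers of points together (`p.2` is the
multiset of the positive multiplicities).

The proof. Let `M` be the nine largest multiplicities, `R` the exponents of the forms of degree `d`.
By a degeneration of the plane to a tube over an elliptic curve the system with the multiplicities
`M` and any others up to `B` is bounded up to an error `E (B)` of the order of `B` times the square
root of the room. Doublings (`4` points of multiplicity `v` collide) turn this into emptiness with a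
small error for multiplicities up to a fixed `B`; because ranks of general points are submodular, a
deficient point would stay deficient after it is repeated, so that approximate emptiness implies
independence up to a margin; both together imply exactness for many small points.
-/

namespace Pool.Agent.Results.MP_70e04f_ag.FiniteForEachTenthMultiplicity

open MvPolynomial Pool.Agent.TH167.SHDefs
open Pool.Agent.Q310.FP (Standard Carries hZero chi)

/-- The property holds for all `n`-tuples of points outside some hypersurface. -/
def ForGeneral {n : ℕ} (p : (Fin n → Fin 2 → ℂ) → Prop) : Prop :=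
  ∃ F : MvPolynomial (Fin n × Fin 2) ℂ, F ≠ 0 ∧ ∀ P : Fin n → Fin 2 → ℂ,
    eval (fun ij : Fin n × Fin 2 => P ij.1 ij.2) F ≠ 0 → p P

/-- The number of the multiplicities larger than `μ`. -/
def above {n : ℕ} (w : Fin n → ℕ) (μ : ℕ) : ℕ := (Finset.univ.filter fun i => μ < w i).card

/-- The multiset of the positive multiplicities. -/
def positive {n : ℕ} (w : Fin n → ℕ) : Multiset ℕ :=
  (Finset.univ.val.map w).filter (fun x => x ≠ 0)

theorem result :
    -- (1) the regular classes
    (∀ (n : ℕ), 4 ≤ n → ∀ (d : ℕ) (w : Fin n → ℕ) (d' : ℕ) (w' : Fin n → ℕ) (μ : ℕ),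
      Carries d w d' w' → Standard d' w' → above w' μ ≤ 9 → 10 ^ 31 * (μ + 1) ^ 14 ≤ d' →
      ForGeneral fun P => hZero P d w = max 0 (chi d w)) ∧
    -- (2) all classes
    (∀ (n : ℕ), 4 ≤ n → ∀ (d : ℕ) (w : Fin n → ℕ), ForGeneral fun P =>
      hZero P d w = max 0 (chi d w) ∨
      (∃ (G : MvPolynomial (Fin 3) ℂ) (e : ℕ) (u : Fin n → ℕ), MinusOne P G e u ∧
        inter d w e u ≤ -2) ∨
      ∃ (d'' : ℕ) (w'' : Fin n → ℕ) (k : ℕ) (G : Fin k → MvPolynomial (Fin 3) ℂ)
        (e : Fin k → ℕ) (u : Fin k → Fin n → ℕ) (d' : ℕ) (w' : Fin n → ℕ),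
        Decomp P d w d'' w'' G e u (fun _ => 1) ∧
        Relation.ReflTransGen Quadratic (d'', w'') (d', w') ∧ Standard d' w' ∧
        hZero P d' w' = hZero P d w ∧ hZero P d' w' ≠ max 0 (chi d' w') ∧
        d' ≤ d ∧ (∀ μ, above w' μ ≤ above w μ) ∧ above w' 0 < (d' + 2).choose 2 ∧
        ∀ μ, above w' μ ≤ 9 → d' < 10 ^ 31 * (μ + 1) ^ 14) ∧
    -- (3) finiteness
    (∀ μ : ℕ, {p : ℕ × Multiset ℕ | ∃ (n : ℕ) (w : Fin n → ℕ), 4 ≤ n ∧ p.2 = positive w ∧
      Standard p.1 w ∧ above w μ ≤ 9 ∧
      ¬ ForGeneral fun P => hZero P p.1 w = max 0 (chi p.1 w)}.Finite) := by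
  have e31 : (10 : ℕ) ^ 31 = 10000000000000000000000000000000 := by norm_num
  refine ⟨fun n hn d w d' w' μ hc hs h9 hd => ?_, fun n hn d w => ?_, fun μ => ?_⟩
  · rw [e31] at hd
    refine (Pool.Agent.Q310.FP.GE.orbit hn hc hs (H879.Star.ge_star (μ := μ)
      (I := Finset.univ.filter fun i => μ < w' i) hn hs h9 (fun i hi => ?_) hd)).hZero
    rw [Finset.mem_filter, not_and] at hi
    have := hi (Finset.mem_univ i)
    omega
  · obtain ⟨F, hF, hF'⟩ := H879.Star.shgh_less hn (R := H879.Star.Rem10)
      (H879.Star.std_or10 hn) d w
    refine ⟨F, hF, fun P hP => ?_⟩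
    rcases hF' P hP with h | h |
      ⟨d'', w'', k, G, e, u, d', w', h1, h2, hl, h3, h4, h5, h6, h7⟩
    · exact Or.inl h
    · exact Or.inr (Or.inl h)
    · refine Or.inr (Or.inr ⟨d'', w'', k, G, e, u, d', w', h1, h2, h3, h4, h5, hl.1, hl.2, h7, ?_⟩)
      rw [e31]
      exact h6
  · refine (H879.Star.finite_rem μ).subset ?_
    rintro p ⟨n, w, h1, h2, h3, h4, h5⟩
    exact ⟨n, w, h1, h2, h3, h4, fun hG => h5 hG.hZero⟩

end Pool.Agent.Results.MP_70e04f_ag.FiniteForEachTenthMultiplicity
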