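import Mathlib
import Pool.Agent.H902.CB.Euc

set_option autoImplicit false

/-!
# One arbitrary multiplicity, the others at most `b = d - m 1`: nonspecial for `3 |χ| ≥ b (b + 1) ^ 2 (b + 2)`

Let `D = d H - m 1 E 1 - ⋯ - m n E n` be ANY class (at general points, any number `n`) with
`m i ≤ b = d - m 1` for `i ≥ 2`.

* (1) If `3 |χ (D)| ≥ b (b + 1) ^ 2 (b + 2)`, then `h⁰ (D) = max (0, χ (D))`. So for fixed `b` and fixed
  `m 2, …, m n ≤ b`, Q1 is true for all `m 1` outside of an interval, whose length is bounded by a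
  polynomial in `b` (`χ` grows by at least `b + 1` with `m 1`), whatever the number of points.
* (2) If one of the other multiplicities is `b` (curves of bidegree `(a, b)` on a quadric), the same is
  true for `|χ (D)| ≥ (b + 1) ∑ x (x + 1)`, where `x` runs through the different values of the
  multiplicities `≤ b`.
* (3) `Good b s`: NO system of degree `a + b` with multiplicities `a`, `b` and `s`, `a = 0, 1, 2, …`, is
  special. If `s` and `s'` are good for `b`, so is `s + s'`.
* (4) Let `(e; α, β, μ)` be the class of ANY pencil of rational curves (an image of the class `H - E`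
  under quadratic transformations) with `e = α + β`, `β ≥ 1`. Then `t μ` is good for `b = t β`, for all
  `t`. For all `x ≤ b`, `2 b + 2` points of multiplicity `x` are good for `b`. The multisets `m ^ 6`,
  `m ^ 7`, `m ^ 9` are good for `b = 2 m`; simple points may be added. Hence all unions of any number
  of these sets with the same `b` are good (`Union b s`).
* (5) The images of nonspecial classes under quadratic transformations are nonspecial.

Idea: (3) is the Wronskian lemma `Pool.Agent.H902.CB.glue` (a fibre which is partly filled by the first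
set is completed by the second one). (4) The class `D a = (a + t β; a, t β, t μ)` equals
`t F' + (a - t α) F`, where `F'` is the given pencil and `F` the pencil of lines with `F F' = β`. If
`a < t α`, then `D a F' < 0` and `F'` is nef; if `a ≥ t α`, then the conditions of `t F'` are
independent, and so are those of `t F' + k F` by induction on `k`. The sets `x ^ (2 b + 2)`: the
rectangle with `x (x + 1)` columns and `b + 1` rows is filled exactly by `2 b + 2` points of multiplicity
`x`. This follows by the Euclidean algorithm for `(b, x)`: `x` rows are filled by triangles of size `x`,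
and elementary transformations replace `x` by `b - x` (`Pool.Agent.H902.CB.BR_equal`). (1), (2): the
given set lies between two unions of such sets, and `(c + b; c, x, s)` is a quadratic transform of
`(a + b; a, b, b - x, s)`, `a = c + b - x`.
-/

namespace Pool.Agent.Results.MP_70e04f_ag.UnionsOfPencils

open MvPolynomial

/-- The homogeneous ideal of the point `(p 0 : p 1 : 1)`. -/
noncomputable def pt (p : Fin 2 → ℂ) : Ideal (MvPolynomial (Fin 3) ℂ) :=
  Ideal.span {X 0 - C (p 0) * X 2, X 1 - C (p 1) * X 2}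

/-- The space of the forms of degree `d` with multiplicity at least `w i` at `P i` for all `i`. -/
noncomputable def forms {n : ℕ} (P : Fin n → Fin 2 → ℂ) (w : Fin n → ℕ) (d : ℕ) :
    Submodule ℂ (MvPolynomial (Fin 3) ℂ) :=
  homogeneousSubmodule (Fin 3) ℂ d ⊓ Submodule.restrictScalars ℂ (⨅ i : Fin n, pt (P i) ^ (w i))

/-- The Euler characteristic of `O (d H - ∑ w i E i)`. -/
def chi {n : ℕ} (w : Fin n → ℕ) (d : ℕ) : ℤ :=
  ((d + 2).choose 2 : ℤ) - ∑ i : Fin n, ((w i + 1).choose 2 : ℤ)

/-- The property holds for all `n`-tuples of points outside some hypersurface. -/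
def General {n : ℕ} (p : (Fin n → Fin 2 → ℂ) → Prop) : Prop :=
  ∃ F : MvPolynomial (Fin n × Fin 2) ℂ, F ≠ 0 ∧ ∀ P : Fin n → Fin 2 → ℂ,
    eval (fun q : Fin n × Fin 2 => P q.1 q.2) F ≠ 0 → p P

/-- The linear system is not special at general points: `h⁰ = max (0, χ)`. -/
def Expected {n : ℕ} (w : Fin n → ℕ) (d : ℕ) : Prop :=
  General fun P => (Module.finrank ℂ (forms P w d) : ℤ) = max 0 (chi w d)

/-- The multiset of the multiplicities `w i`. -/
def values {n : ℕ} (w : Fin n → ℕ) : Multiset ℕ := (Finset.univ : Finset (Fin n)).val.map w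

/-- None of the systems of degree `a + b` with multiplicities `a`, `b` and `s` is special. -/
def Good (b : ℕ) (s : Multiset ℕ) : Prop :=
  ∀ (a n : ℕ) (w : Fin n → ℕ), values w = a ::ₘ b ::ₘ s → Expected w (a + b)

/-- One quadratic (Cremona) transformation of classes: the reflection in the class
`H - E i - E j - E k`. -/
def Quadratic {n : ℕ} (a b : ℕ × (Fin n → ℕ)) : Prop :=
  ∃ i j k : Fin n, i ≠ j ∧ i ≠ k ∧ j ≠ k ∧
    (b.1 : ℤ) = 2 * a.1 - a.2 i - a.2 j - a.2 k ∧
    (b.2 i : ℤ) = a.1 - a.2 j - a.2 k ∧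
    (b.2 j : ℤ) = a.1 - a.2 i - a.2 k ∧
    (b.2 k : ℤ) = a.1 - a.2 i - a.2 j ∧
    ∀ l, l ≠ i → l ≠ j → l ≠ k → b.2 l = a.2 l

/-- Finitely many quadratic transformations carry the class `a` to `b`. -/
def Carries {n : ℕ} (a b : ℕ × (Fin n → ℕ)) : Prop := Relation.ReflTransGen Quadratic a b

/-- `e H - ∑ u i E i` is the class of a pencil of rational curves: an image of a class `H - E p`. -/
def Pencil {n : ℕ} (e : ℕ) (u : Fin n → ℕ) : Prop :=
  ∃ p : Fin n, Carries (1, fun i => if i = p then 1 else 0) (e, u)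

/-- Unions of multiples of pencils, of sets of `2 b + 2` points of equal multiplicity `x ≤ b`, of six,
seven or nine points of multiplicity `b / 2`, and of points of multiplicity at most one. -/
inductive Union (b : ℕ) : Multiset ℕ → Prop
  | zero : Union b 0
  | pencil {n e : ℕ} {u : Fin n → ℕ} {α β : ℕ} {μ : Multiset ℕ} (t : ℕ) (hP : Pencil e u)
      (hu : values u = α ::ₘ β ::ₘ μ) (he : e = α + β) (hβ : 1 ≤ β) (hb : b = t * β) :
      Union b (μ.map (t * ·))
  | equal {x : ℕ} (hx : x ≤ b) : Union b (Multiset.replicate (2 * (b + 1)) x)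
  | half {m : ℕ} (j : ℕ) (hj : j = 6 ∨ j = 7 ∨ j = 9) (hb : b = 2 * m) :
      Union b (Multiset.replicate j m)
  | simple {x : ℕ} {s : Multiset ℕ} (hx : x ≤ 1) (h : Union b s) : Union b (x ::ₘ s)
  | add {s s' : Multiset ℕ} (h : Union b s) (h' : Union b s') : Union b (s + s')

theorem key {n : ℕ} (P : Fin n → Fin 2 → ℂ) (w : Fin n → ℕ) (d : ℕ) :
    (Module.finrank ℂ (forms P w d) : ℤ) = max 0 (chi w d) ↔
      Pool.Agent.H932R3.ExpDim ℂ w P d := by
  have h1 : (∑ i : Fin n, ((w i + 1).choose 2 : ℤ)) =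
      ((∑ i : Fin n, (w i + 1).choose 2 : ℕ) : ℤ) := by push_cast; rfl
  have h2 : Pool.Agent.H932R3.ExpDim ℂ w P d ↔
      Module.finrank ℂ (forms P w d) = (d + 2).choose 2 - ∑ i : Fin n, (w i + 1).choose 2 :=
    Iff.rfl
  rw [h2]
  unfold chi
  rw [h1]
  constructor
  · intro h
    omega
  · intro h
    rw [h]
    omega

open Pool.Agent.H902.CB

theorem expected_EI {n : ℕ} (w : Fin n → ℕ) (d : ℕ) : Expected w d ↔ EI w (PT d d d) := by
  rw [← gen_iff]
  unfold Expected General
  constructor
  · rintro ⟨F, hF, h⟩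
    exact ⟨F, hF, fun P hP => (key P w d).1 (h P hP)⟩
  · rintro ⟨F, hF, h⟩
    exact ⟨F, hF, fun P hP => (key P w d).2 (h P hP)⟩

theorem expected_EIM {n : ℕ} {w : Fin n → ℕ} {d : ℕ} {s : Multiset ℕ} (hs : values w = s) :
    Expected w d ↔ EIM s (PT d d d) := by
  rw [expected_EI, EIM_iff hs]

theorem exists_values (s : Multiset ℕ) : ∃ (n : ℕ) (w : Fin n → ℕ), values w = s := by
  refine ⟨s.toList.length, fun i => s.toList.getD i 0, ?_⟩
  have h := vals_list s.toList s.toList.length le_rfl
  rw [Nat.sub_self, Multiset.replicate_zero, zero_add, Multiset.coe_toList] at h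
  exact h

theorem good_iff {b : ℕ} {s : Multiset ℕ} : Good b s ↔ BR b s := by
  constructor
  · intro h
    refine BR_of_plane fun a => ?_
    obtain ⟨n, w, hw⟩ := exists_values (a ::ₘ b ::ₘ s)
    exact (expected_EIM hw).1 (h a n w hw)
  · intro h a n w hw
    exact (expected_EIM hw).2 (plane_of_BR h a)

theorem BR_union {b : ℕ} {s : Multiset ℕ} (h : Union b s) : BR b s := by
  induction h with
  | zero => exact BR_zero b
  | pencil t hP hu he hβ hb =>
    rw [hb]
    exact BR_pen hP hu he hβ t
  | @equal x hx => exact BR_equal b x hx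
  | half j hj hb =>
    rw [hb]
    rcases hj with rfl | rfl | rfl
    · exact BR_six _
    · exact BR_seven _
    · exact BR_nine _
  | @simple x s hx _ ih =>
    rcases Nat.le_one_iff_eq_zero_or_eq_one.1 hx with rfl | rfl
    · exact BR_none ih
    · exact BR_one ih
  | add _ _ ih ih' => exact BR_add ih ih'

theorem sum_values {n : ℕ} (w : Fin n → ℕ) :
    (∑ i : Fin n, ((w i + 1).choose 2 : ℤ)) = (cM (values w) : ℤ) := by
  have h : (∑ i : Fin n, (w i + 1).choose 2) = cM (values w) := cond_cM rfl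
  rw [← h]
  push_cast
  rfl

theorem mem_values {n : ℕ} {v : Fin n → ℕ} {x : ℕ} (h : x ∈ values v) : ∃ i, v i = x := by
  unfold values at h
  rw [Multiset.mem_map] at h
  obtain ⟨i, _, hi⟩ := h
  exact ⟨i, hi⟩

theorem values_cons {n : ℕ} (c : ℕ) (v : Fin n → ℕ) :
    values (Fin.cons c v : Fin (n + 1) → ℕ) = c ::ₘ values v := vals_fcons c v

/-- **part (1)** -/
theorem part_one {n b c : ℕ} {v : Fin n → ℕ} (hv : ∀ i, v i ≤ b)
    (h : (b * (b + 1) ^ 2 * (b + 2) : ℤ) ≤ 3 * |chi (Fin.cons c v : Fin (n + 1) → ℕ) (c + b)|) :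
    Expected (Fin.cons c v : Fin (n + 1) → ℕ) (c + b) := by
  rw [expected_EIM (values_cons c v)]
  refine far_plane (fun x hx => ?_) ?_
  · obtain ⟨i, rfl⟩ := mem_values hx
    exact hv i
  · have h1 : chi (Fin.cons c v : Fin (n + 1) → ℕ) (c + b) = ((c + b + 2).choose 2 : ℤ) -
        (((c + 1).choose 2 : ℕ) + cM (values v) : ℕ) := by
      unfold chi
      rw [sum_values, values_cons, cM_cons]
    rw [h1] at h
    have h2 : ((b * (b + 1) ^ 2 * (b + 2) : ℕ) : ℤ) = b * (b + 1) ^ 2 * (b + 2) := by push_cast; rfl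
    rw [← h2] at h
    obtain ⟨T, hT⟩ : ∃ T, T = b * (b + 1) ^ 2 * (b + 2) := ⟨_, rfl⟩
    rw [← hT] at h ⊢
    rcases abs_cases (((c + b + 2).choose 2 : ℤ) -
        (((c + 1).choose 2 : ℕ) + cM (values v) : ℕ)) with ⟨h3, _⟩ | ⟨h3, _⟩
    · rw [h3] at h
      exact Or.inr (by omega)
    · rw [h3] at h
      exact Or.inl (by omega)

/-- **part (2)** -/
theorem part_two {n a b : ℕ} {v : Fin n → ℕ} (hv : ∀ i, v i ≤ b)
    (h : (((b + 1) * ∑ x ∈ Finset.univ.image v, x * (x + 1) : ℕ) : ℤ) ≤
      |chi (Fin.cons a (Fin.cons b v) : Fin (n + 2) → ℕ) (a + b)|) :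
    Expected (Fin.cons a (Fin.cons b v) : Fin (n + 2) → ℕ) (a + b) := by
  have h0 : values (Fin.cons a (Fin.cons b v) : Fin (n + 2) → ℕ) = a ::ₘ b ::ₘ values v := by
    rw [values_cons, values_cons]
  rw [expected_EIM h0]
  refine far (X := Finset.univ.image v) (fun x hx => ?_) (fun x hx => ?_) ?_
  · rw [Finset.mem_image] at hx
    obtain ⟨i, _, rfl⟩ := hx
    exact hv i
  · obtain ⟨i, rfl⟩ := mem_values hx
    exact Finset.mem_image_of_mem v (Finset.mem_univ i)
  · have h1 : chi (Fin.cons a (Fin.cons b v) : Fin (n + 2) → ℕ) (a + b) =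
        (((a + 1) * (b + 1) : ℕ) : ℤ) - cM (values v) := by
      unfold chi
      rw [sum_values, h0, cM_cons, cM_cons]
      have t1 := two_chN (a + b + 1)
      have t2 := two_chN a
      have t3 := two_chN b
      rw [show a + b + 1 + 1 = a + b + 2 by ring] at t1
      have e : (a + b + 2).choose 2 =
          (a + 1) * (b + 1) + (a + 1).choose 2 + (b + 1).choose 2 := by nlinarith
      rw [e]
      push_cast
      ring
    rw [h1] at h
    obtain ⟨T, hT⟩ : ∃ T, T = (b + 1) * ∑ x ∈ Finset.univ.image v, x * (x + 1) := ⟨_, rfl⟩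
    rw [← hT] at h ⊢
    obtain ⟨A, hA⟩ : ∃ A, A = (a + 1) * (b + 1) := ⟨_, rfl⟩
    rw [← hA] at h ⊢
    rcases abs_cases ((A : ℤ) - cM (values v)) with ⟨h3, _⟩ | ⟨h3, _⟩
    · rw [h3] at h
      exact Or.inr (by omega)
    · rw [h3] at h
      exact Or.inl (by omega)

theorem result :
    -- (1) one arbitrary multiplicity `c`, the others at most `b`, degree `c + b`
    (∀ (n b c : ℕ) (v : Fin n → ℕ), (∀ i, v i ≤ b) →
      (b * (b + 1) ^ 2 * (b + 2) : ℤ) ≤ 3 * |chi (Fin.cons c v : Fin (n + 1) → ℕ) (c + b)| →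
      Expected (Fin.cons c v : Fin (n + 1) → ℕ) (c + b)) ∧
    -- (2) multiplicities `a`, `b`, and the others at most `b`, degree `a + b`
    (∀ (n a b : ℕ) (v : Fin n → ℕ), (∀ i, v i ≤ b) →
      (((b + 1) * ∑ x ∈ Finset.univ.image v, x * (x + 1) : ℕ) : ℤ) ≤
        |chi (Fin.cons a (Fin.cons b v) : Fin (n + 2) → ℕ) (a + b)| →
      Expected (Fin.cons a (Fin.cons b v) : Fin (n + 2) → ℕ) (a + b)) ∧
    -- (3) unions
    (∀ (b : ℕ) (s s' : Multiset ℕ), Good b s → Good b s' → Good b (s + s')) ∧
    -- (4) multiples of pencils, `2 b + 2` equal multiplicities, and their unions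
    (∀ (b : ℕ) (s : Multiset ℕ), Union b s → Good b s) ∧
    -- (5) the images under quadratic transformations
    (∀ (n d e : ℕ) (w v : Fin n → ℕ), Expected w d → Carries (d, w) (e, v) → Expected v e) := by
  refine ⟨fun n b c v hv h => part_one hv h, fun n a b v hv h => part_two hv h,
    fun b s s' h h' => ?_, fun b s h => good_iff.2 (BR_union h), ?_⟩
  · exact good_iff.2 (BR_add (good_iff.1 h) (good_iff.1 h'))
  · intro n d e w v h hc
    exact (expected_EI v e).2 (EI_carries (a := (d, w)) (b := (e, v)) hc ((expected_EI w d).1 h))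

end Pool.Agent.Results.MP_70e04f_ag.UnionsOfPencils
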